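import Pool.Agent.R229.FR.A
import Pool.Agent.R229.FR.B
import Pool.Agent.R229.FR.C

set_option autoImplicit false

/-!
# `{1,4}`-factors of 5-regular graphs with few odd three-edge cuts

A finite simple 5-regular graph without three pairwise disjoint odd sets of vertices, each joined
to its complement by exactly three edges, has a `{1,4}`-factor.
-/

namespace Pool.Agent.Results.MP_39c6f6_co.FewOddThreeCuts

/-- The number of edges of `G` between `C` and its complement. -/
noncomputable def cut {V : Type} (G : SimpleGraph V) (C : Set V) : ℕ :=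
  {p : V × V | p.1 ∈ C ∧ p.2 ∉ C ∧ G.Adj p.1 p.2}.ncard

theorem result {V : Type} [Fintype V] (G : SimpleGraph V)
    -- `G` is 5-regular
    (h5 : ∀ v, (G.neighborSet v).ncard = 5)
    -- there are no three pairwise disjoint odd sets with exactly three edges to the complement
    (h3 : ∀ C₁ C₂ C₃ : Set V, Odd C₁.ncard → Odd C₂.ncard → Odd C₃.ncard →
      Disjoint C₁ C₂ → Disjoint C₁ C₃ → Disjoint C₂ C₃ →
      ¬ (cut G C₁ = 3 ∧ cut G C₂ = 3 ∧ cut G C₃ = 3)) :
    -- then `G` has a `{1,4}`-factor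
    ∃ H ≤ G, ∀ v, (H.neighborSet v).ncard = 1 ∨ (H.neighborSet v).ncard = 4 := by
  obtain ⟨f, hf⟩ := Pool.Agent.R229.FR.b V G h5 h3 (Pool.Agent.R229.FR.a1 V G h5)
    (fun C => Pool.Agent.R229.FR.a3 V G C)
  exact Pool.Agent.R229.FR.c h5 (Pool.Agent.R229.FR.a2 V G h5) f hf

end Pool.Agent.Results.MP_39c6f6_co.FewOddThreeCuts
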